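import Mathlib
import Pool.Agent.Helper9.SC.Main

open Finset

namespace Pool.Agent.Results.MP_947403_nt.Sums72

/-- `A_p = ∑_{0 ≤ k < p} C(2k,k) C(4k,2k) 72^{-k}`. -/
def A (p : ℕ) : ℚ := ∑ k ∈ range p, ((2 * k).choose k : ℚ) * ((4 * k).choose (2 * k)) / 72 ^ k

/-- `B_p = ∑_{0 ≤ k < p} (1-k) C(2k,k) C(4k,2k) 72^{-k}`. -/
def B (p : ℕ) : ℚ :=
  ∑ k ∈ range p, (1 - k : ℚ) * ((2 * k).choose k) * ((4 * k).choose (2 * k)) / 72 ^ k

/-- `a ≡ b (mod p^2)`: the difference is `p^2` times a rational with denominator prime to `p`. -/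
def CongrSq (p : ℕ) (a b : ℚ) : Prop := ∃ c : ℚ, ¬ p ∣ c.den ∧ a - b = (p : ℚ) ^ 2 * c

/-- `x ≡ 1 (mod 4)` and `p = x^2 + y^2` for some even integer `y`. -/
def IsRep (p : ℕ) (x : ℤ) : Prop := x % 4 = 1 ∧ ∃ y : ℤ, Even y ∧ (p : ℤ) = x ^ 2 + y ^ 2

/-- For every prime `p > 3`: if `p ≡ 1 (mod 4)` there is exactly one integer `x` with
`x ≡ 1 (mod 4)`, `p = x^2 + y^2`, `y` even, and for it `A_p ≡ (6/p)(2x - p/(2x))` and
`B_p ≡ (6/p) x (mod p^2)`; if `p ≡ 3 (mod 4)` then, with `m = (p+1)/4`,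
`A_p ≡ (6/p) 2p/(3 C(2m,m)) (mod p^2)`. -/
theorem result (p : ℕ) [Fact p.Prime] (h3 : 3 < p) :
    (p % 4 = 1 → (∃! x : ℤ, IsRep p x) ∧ ∀ x : ℤ, IsRep p x →
      CongrSq p (A p) ((legendreSym p 6 : ℚ) * (2 * x - p / (2 * x))) ∧
      CongrSq p (B p) ((legendreSym p 6 : ℚ) * x)) ∧
    (p % 4 = 3 → ∀ m : ℕ, m = (p + 1) / 4 →
      CongrSq p (A p) ((legendreSym p 6 : ℚ) * (2 * p / (3 * ((2 * m).choose m : ℚ))))) := by
  constructor
  · intro hp4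
    obtain ⟨n, hn⟩ : ∃ n, p = 4 * n + 1 := ⟨p / 4, by omega⟩
    have hPp : Prime (p : ℤ) := Nat.prime_iff_prime_int.1 (Fact.out : p.Prime)
    refine ⟨?_, ?_⟩
    · obtain ⟨x, y, hx, hy, hxy⟩ := Pool.Agent.Helper9.SC.exists_rep (p := p) hn h3
      refine ⟨x, ⟨hx, y, hy, hxy⟩, ?_⟩
      rintro a ⟨ha, b, hb, hab⟩
      have hxo : Odd x := by rw [Int.odd_iff]; omega
      have hao : Odd a := by rw [Int.odd_iff]; omega
      have hsq := Pool.Agent.Helper9.SC.sq_eq_of_rep hPp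
        (by have := (Fact.out : p.Prime).pos; exact_mod_cast this) hxy hab hxo hao hy hb
      rcases sq_eq_sq_iff_eq_or_eq_neg.1 hsq with h | h
      · exact h
      · omega
    · rintro x ⟨hx, y, hy, hxy⟩
      obtain ⟨⟨r, h1, h2⟩, ⟨r', h1', h2'⟩⟩ := Pool.Agent.Helper9.SC.main_one (p := p) hn hx hy hxy
      exact ⟨h1.congr h2, h1'.congr h2'⟩
  · intro hp4 m hm
    obtain ⟨j, hj⟩ : ∃ j, p = 4 * j + 3 := ⟨p / 4, by omega⟩
    obtain ⟨r, h1, h2⟩ := Pool.Agent.Helper9.SC.three_mod (p := p) hj (by omega)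
    have hmj : m = j + 1 := by omega
    rw [hmj]
    exact h1.congr h2

end Pool.Agent.Results.MP_947403_nt.Sums72
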